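import Pool.Agent.TH176.FB.Fat2
import Pool.Agent.TH176.FB.J25

/-!
# The Hilbert function of `t ^ 3` general fat points of multiplicity `m` in `ℙ³`

Let `t ≥ 2` and `m ≥ 1`. The Hilbert function of `t ^ 3` general points of multiplicity `m` in `ℙ³` has
the expected value `min (binom (d + 3) 3) (t ^ 3 * binom (m + 2) 3)` in every degree `d`, except
possibly if `c = d - t m` satisfies `0 ≤ c ≤ t - 3`, `binom (t + c + 3) 3 > t ^ 3` and
`m < binom (c + 3) 3`. These are finitely many pairs `(m, d)` for every `t`, and there are none for
`t ≤ 5`, that is, for 8, 27, 64 or 125 points.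

* If `c ≥ t - 2`, the conditions are independent for suitable points on a complete intersection
  curve.
* If `c < 0`, there are no forms of degree `d` with multiplicity `m` at the points of a grid.
* If `0 ≤ c ≤ t - 3`, the space degenerates to the normal cones of the flag of complete intersections
  containing the monomial curve `u ↦ (u, u ^ t, u ^ (t ^ 2))`. In the model a derivative in a normal
  direction maps the forms of degree `d` with multiplicity `m` to those of degree `d - t` with
  multiplicity `m - 1`. So there are none if there are none of degree `t + c` through the points. If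
  `m ≥ binom (c + 3) 3`, all but two of the points are placed on the curve and the other two on the
  coordinate surfaces; the coefficients of a form in the normal coordinates are polynomials in `u`
  with few terms, which vanish one after the other by Descartes' rule of signs.
-/

set_option autoImplicit false

namespace Pool.Agent.Results.MP_b56c98_ag.CubesInSpace

open MvPolynomial
open scoped LinearAlgebra.Projectivization
open Pool.Agent.H350R3.MG

/-- The `m`-th symbolic power of the ideal of the points `P₁, …, P_r`. -/
noncomputable def symbolicPower {n r : ℕ} (m : ℕ) (P : Fin r → ℙ ℂ (Fin (n + 1) → ℂ)) :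
    Ideal (MvPolynomial (Fin (n + 1)) ℂ) :=
  ⨅ i, primeIdeal (P i) ^ m

/-- The Hilbert function `dim R_d - dim J_d` of `R / J`. -/
noncomputable def hilbert {n : ℕ} (J : Ideal (MvPolynomial (Fin (n + 1)) ℂ)) (d : ℕ) : ℤ :=
  (Module.finrank ℂ (homogeneousSubmodule (Fin (n + 1)) ℂ d) : ℤ) -
    Module.finrank ℂ (homogeneousSubmodule (Fin (n + 1)) ℂ d ⊓ Submodule.restrictScalars ℂ J :
      Submodule ℂ (MvPolynomial (Fin (n + 1)) ℂ))

/-- `h` is the value `H_{n,r,m}(d)` of the Hilbert function of `R / I^(m)` for `r` general points:
the value is `h` for all the `r`-tuples of points in a nonempty Zariski open set. -/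
def IsGeneralHilbertValue (n r m d : ℕ) (h : ℤ) : Prop :=
  Generally (fun P : Fin r → ℙ ℂ (Fin (n + 1) → ℂ) => hilbert (symbolicPower m P) d = h)

/-- The Hilbert function of `t ^ 3` general points of multiplicity `m` in `ℙ³`. -/
theorem result (t m d : ℕ) (ht : 2 ≤ t) (hm : 1 ≤ m)
    (hc : ∀ c : ℕ, d = t * m + c → c + 3 ≤ t → t ^ 3 < (t + c + 3).choose 3 →
      (c + 3).choose 3 ≤ m) :
    IsGeneralHilbertValue 3 (t ^ 3) m d
      (min ((d + 3).choose 3) (t ^ 3 * (m + 2).choose 3) : ℕ) := by
  obtain ⟨D, hD, h⟩ := Pool.Agent.TH176.FB.fat_space t m d ht hm hc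
  refine generally_of_poly D hD fun v hv hp => ?_
  have h1 := h v hp
  unfold hilbert symbolicPower
  rw [Pool.Agent.TH176.FB.forms_eq_symbolic v hv, h1,
    Pool.Agent.TH206.Fro.dim_thm 4 d ℂ, Pool.Agent.TH176.FB.card_Mon_choose 3 d]
  omega

end Pool.Agent.Results.MP_b56c98_ag.CubesInSpace
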