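import Mathlib
import Pool.Agent.H350R3.MG.PLem
import Pool.Agent.H350R3.MF.Gen
import Pool.Agent.TH130.FP.Pts

/-!
# The Hilbert function of general fat points to leading order, for all numbers of points

Fix `1 ≤ m ≤ d`, and put `e = d + 1 - m`. The value expected for the Hilbert function
`H_{n,r,m}(d)` of `r` general fat points of multiplicity `m` in `ℙⁿ` is
`binom (n + d) n` minus the coefficient of `t ^ d` in the series `(1 - t ^ e) ^ r / (1 - t) ^ (n + 1)`
truncated at its first coefficient that is not positive. We show that for `n → ∞` the value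
`H_{n,r,m}(d)` agrees with the expected one up to an error `ε * n ^ d`, uniformly in the number `r`
of points; that the error is `O (n ^ (d - 1))` below the critical density; and that there is no
error (no form of degree `d` vanishes to order `m` at the points) beyond the critical density.
If `d ≥ 2 m - 1`, the expected value is `min (binom (n + d) n) (r * binom (n + m - 1) n)`.

By apolarity, the forms of degree `d` vanishing to order `m` at general points are dual to the
degree `d` part of the quotient by the `e`-th powers of general linear forms. We divide the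
variables into blocks of a large fixed size, and specialise the linear forms to sums of linear forms
in `e` different blocks, the sets of blocks being evenly distributed. Modulo the monomials which
contain two variables of one block, the `e`-th powers are products of linear forms in different
blocks; in the multilinear part of the quotient by generic such products the optimal bound of
Shearer's type is attained if the block size is divisible enough.
-/

set_option autoImplicit false

namespace Pool.Agent.Results.MP_b56c98_ag.LeadingOrder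

open MvPolynomial
open scoped LinearAlgebra.Projectivization
open Pool.Agent.H350R3.MG

/-- The `m`-th symbolic power of the ideal of the points `P₁, …, P_r`. -/
noncomputable def symbolicPower {n r : ℕ} (m : ℕ) (P : Fin r → ℙ ℂ (Fin (n + 1) → ℂ)) :
    Ideal (MvPolynomial (Fin (n + 1)) ℂ) :=
  ⨅ i, primeIdeal (P i) ^ m

/-- The Hilbert function `dim R_d - dim J_d` of `R / J`. -/
noncomputable def hilbert {n : ℕ} (J : Ideal (MvPolynomial (Fin (n + 1)) ℂ)) (d : ℕ) : ℤ :=
  (Module.finrank ℂ (homogeneousSubmodule (Fin (n + 1)) ℂ d) : ℤ) -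
    Module.finrank ℂ (homogeneousSubmodule (Fin (n + 1)) ℂ d ⊓ Submodule.restrictScalars ℂ J :
      Submodule ℂ (MvPolynomial (Fin (n + 1)) ℂ))

/-- `h` is the value `H_{n,r,m}(d)` of the Hilbert function of `R / I^(m)` for `r` general points:
the value is `h` for all the `r`-tuples of points in a nonempty Zariski open set. -/
def IsGeneralHilbertValue (n r m d : ℕ) (h : ℤ) : Prop :=
  Generally (fun P : Fin r → ℙ ℂ (Fin (n + 1) → ℂ) => hilbert (symbolicPower m P) d = h)

/-- The coefficient of `t ^ k` in the series `(1 - t ^ e) ^ r / (1 - t) ^ (n + 1)`, that is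
`∑ j, (-1) ^ j * binom r j * binom (n + k - j e) n` over the `j` with `j e ≤ k`. -/
def co (n r e k : ℕ) : ℤ :=
  ∑ j ∈ Finset.range (k / e + 1), (-1 : ℤ) ^ j * (r.choose j : ℤ) *
    ((n + k - j * e).choose n : ℤ)

open Classical in
/-- The expected value of `H_{n,r,m}(d)`: `binom (n + d) n` minus the coefficient of `t ^ d` in the
series `(1 - t ^ e) ^ r / (1 - t) ^ (n + 1)`, `e = d + 1 - m`, truncated at its first coefficient
that is not positive. -/
def expected (n r m d : ℕ) : ℤ :=
  ((n + d).choose n : ℤ) - if ∀ k ≤ d, 0 < co n r (d + 1 - m) k then co n r (d + 1 - m) d else 0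

lemma E_eq (g : ℕ → ℤ) (l : List ℕ) : ∀ j, H350MG.E g l j = H350MF.E g l j := by
  induction l with
  | nil => intro j; rfl
  | cons a l ih =>
    intro j
    simp only [H350MG.E, H350MF.E]
    rw [ih, ih]

lemma co_eq (n r : ℕ) {e : ℕ} (he : 0 < e) (k : ℕ) :
    H350MG.E (H350MG.gj (Fin (n + 1))) (List.ofFn fun _ : Fin r => e) k = co n r e k := by
  rw [E_eq, List.ofFn_const, H350MF.E_closed _ he]
  unfold co
  refine Finset.sum_congr rfl fun j hj => ?_
  rw [Pool.Agent.TH130.FP.gj_fin]
  have h1 : j * e ≤ k := by
    rw [Finset.mem_range] at hj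
    exact (Nat.mul_le_mul_right e (Nat.lt_succ_iff.1 hj)).trans (Nat.div_mul_le_self k e)
  rw [Nat.add_sub_assoc h1]

lemma forms_mk {n r m d : ℕ} (hmd : m ≤ d) (v : Fin r → Fin (n + 1) → ℂ) (hv : ∀ i, v i ≠ 0) :
    (homogeneousSubmodule (Fin (n + 1)) ℂ d ⊓ Submodule.restrictScalars ℂ
      (symbolicPower m (fun i => Projectivization.mk ℂ (v i) (hv i))) :
        Submodule ℂ (MvPolynomial (Fin (n + 1)) ℂ)) =
      H350MG.K (H350MG.ptList (fun _ => d + 1 - m)
        (fun x : Fin r × Fin (n + 1) => v x.1 x.2)) d := by
  unfold symbolicPower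
  ext F
  rw [Submodule.mem_inf, Submodule.restrictScalars_mem, Submodule.mem_iInf, H350MG.mem_K]
  constructor
  · rintro ⟨h1, h2⟩
    refine ⟨h1, ?_⟩
    intro c hc
    obtain ⟨i, rfl⟩ := H350MG.exists_of_mem_ptList hc
    have h3 := h2 i
    rw [primeIdeal_mk] at h3
    exact (H350MG.mem_pow_iff (hv i) (by omega) h1).1 h3
  · rintro ⟨h1, h2⟩
    refine ⟨h1, fun i => ?_⟩
    rw [primeIdeal_mk, H350MG.mem_pow_iff (hv i) (by omega) h1]
    exact h2 (fun j => v i j, d + 1 - m)
      (H350MG.mem_ptList (e := fun _ => d + 1 - m)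
        (fun x : Fin r × Fin (n + 1) => v x.1 x.2) i)

/-- for `k < 2 e` only two terms remain -/
lemma co_two {n r e k : ℕ} (he : 0 < e) (h1 : e ≤ k) (h2 : k < 2 * e) :
    co n r e k = ((n + k).choose n : ℤ) - r * ((n + k - e).choose n : ℤ) := by
  unfold co
  have h3 : k / e = 1 := by
    rw [Nat.div_eq_iff he]; omega
  rw [h3, Finset.sum_range_succ, Finset.sum_range_one]
  simp
  ring

lemma co_one {n r e k : ℕ} (h1 : k < e) : co n r e k = ((n + k).choose n : ℤ) := by
  unfold co
  rw [Nat.div_eq_of_lt h1, Finset.sum_range_one]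
  simp

/-- the ratio of the two terms is monotone -/
lemma ratio_step (n e k : ℕ) (h : e ≤ k) :
    (n + (k + 1)).choose n * (n + k - e).choose n ≤
      (n + k).choose n * (n + (k + 1) - e).choose n := by
  obtain ⟨a, rfl⟩ : ∃ a, k = e + a := ⟨k - e, by omega⟩
  have e1 : n + (e + a) - e = n + a := by omega
  have e2 : n + (e + a + 1) - e = n + (a + 1) := by omega
  rw [e1, e2]
  have key : ∀ b, (n + (b + 1)).choose n * (b + 1) = (n + b).choose n * (n + b + 1) := by
    intro b
    have h1 := Nat.add_one_mul_choose_eq (n + b) b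
    have h2 : (n + (b + 1)).choose n = (n + b + 1).choose (b + 1) :=
      Nat.choose_symm_add (a := n) (b := b + 1)
    have h3 : (n + b).choose n = (n + b).choose b := Nat.choose_symm_add
    rw [h2, h3, ← h1]; ring
  have h1 := key (e + a)
  have h2 := key a
  have hpos : 0 < (e + a + 1) * (a + 1) := by positivity
  refine Nat.le_of_mul_le_mul_right ?_ hpos
  calc (n + (e + a + 1)).choose n * (n + a).choose n * ((e + a + 1) * (a + 1))
      = ((n + (e + a + 1)).choose n * (e + a + 1)) * (n + a).choose n * (a + 1) := by ring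
    _ = (n + (e + a)).choose n * (n + a).choose n * ((n + (e + a) + 1) * (a + 1)) := by
        rw [h1]; ring
    _ ≤ (n + (e + a)).choose n * (n + a).choose n * ((n + a + 1) * (e + a + 1)) := by
        refine Nat.mul_le_mul_left _ ?_
        nlinarith [Nat.zero_le (n * e)]
    _ = (n + (e + a)).choose n * ((n + a).choose n * (n + a + 1)) * (e + a + 1) := by ring
    _ = (n + (e + a)).choose n * (n + (a + 1)).choose n * ((e + a + 1) * (a + 1)) := by
        rw [← h2]; ring

lemma co_pos_of {n r e d : ℕ} (he : 0 < e) (hd : d < 2 * e)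
    (hpos : 0 < co n r e d) : ∀ k ≤ d, 0 < co n r e k := by
  have key : ∀ a k, k + a = d → 0 < co n r e k := by
    intro a
    induction a with
    | zero => intro k hk; rw [Nat.add_zero] at hk; rw [hk]; exact hpos
    | succ a ih =>
      intro k hk
      by_cases hke : k < e
      · rw [co_one hke]
        exact_mod_cast Nat.choose_pos (Nat.le_add_right _ _)
      · push Not at hke
        have h1 := ih (k + 1) (by omega)
        rw [co_two he (by omega) (by omega)] at h1 ⊢
        have h2 := ratio_step n e k hke
        have h3 : r * (n + (k + 1) - e).choose n < (n + (k + 1)).choose n := by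
          have : (r : ℤ) * ((n + (k + 1) - e).choose n : ℤ) < ((n + (k + 1)).choose n : ℤ) := by
            linarith
          exact_mod_cast this
        have h4 : 0 < (n + (k + 1) - e).choose n := Nat.choose_pos (by omega)
        have h5 : r * (n + k - e).choose n < (n + k).choose n := by
          by_contra hcon
          push Not at hcon
          have h6 : (n + k).choose n * (n + (k + 1) - e).choose n ≤
              r * (n + k - e).choose n * (n + (k + 1) - e).choose n :=
            Nat.mul_le_mul_right _ hcon
          have h7 : 0 < (n + k - e).choose n := Nat.choose_pos (by omega)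
          have h8 : (r * (n + (k + 1) - e).choose n) * (n + k - e).choose n <
              (n + (k + 1)).choose n * (n + k - e).choose n := Nat.mul_lt_mul_of_pos_right h3 h7
          have h9 : (n + (k + 1)).choose n * (n + k - e).choose n ≤
              (r * (n + (k + 1) - e).choose n) * (n + k - e).choose n := by
            refine h2.trans (h6.trans (le_of_eq ?_))
            ring
          omega
        have h6 : (r : ℤ) * ((n + k - e).choose n : ℤ) < ((n + k).choose n : ℤ) := by
          exact_mod_cast h5
        linarith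
  intro k hk
  exact key (d - k) k (by omega)

lemma expected_eq_min {n r m d : ℕ} (hm : 1 ≤ m) (hmd : 2 * m ≤ d + 1) :
    expected n r m d = min ((n + d).choose n : ℤ) (r * ((n + m - 1).choose n : ℤ)) := by
  unfold expected
  have he : 0 < d + 1 - m := by omega
  have h1 := co_two (n := n) (r := r) (e := d + 1 - m) (k := d) he (by omega) (by omega)
  have h2 : n + d - (d + 1 - m) = n + m - 1 := by omega
  rw [h2] at h1
  by_cases hpos : 0 < co n r (d + 1 - m) d
  · rw [if_pos (co_pos_of he (by omega) hpos), h1, sub_sub_cancel, min_eq_right]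
    linarith
  · rw [if_neg (fun h => hpos (h d le_rfl)), sub_zero, min_eq_left]
    linarith

/-- For `1 ≤ m ≤ d` and every `ε > 0` there are `C` and `n₀` such that for all `n ≥ n₀` and all `r`
the value `h = H_{n,r,m}(d)` satisfies:

* `|h - expected n r m d| ≤ ε * n ^ d`;
* `|h - expected n r m d| ≤ C * n ^ (d - 1)` if the coefficients of the series up to degree `d` are
  at least `ε * n ^ k`;
* `h = binom (n + d) n` if some coefficient of the series up to degree `d` is at most `-ε * n ^ k`;
* if `d ≥ 2 m - 1`, then `|h - min (binom (n + d) n) (r * binom (n + m - 1) n)| ≤ ε * n ^ d`, and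
  `h = binom (n + d) n` if `r * binom (n + m - 1) n ≥ (1 + ε) * binom (n + d) n`. -/
theorem result (m d : ℕ) (hm : 1 ≤ m) (hmd : m ≤ d) (ε : ℝ) (hε : 0 < ε) :
    ∃ (C : ℝ) (n₀ : ℕ), ∀ n r : ℕ, n₀ ≤ n → ∃ h : ℤ, IsGeneralHilbertValue n r m d h ∧
      |((h - expected n r m d : ℤ) : ℝ)| ≤ ε * (n : ℝ) ^ d ∧
      ((∀ k ≤ d, ε * (n : ℝ) ^ k ≤ (co n r (d + 1 - m) k : ℝ)) →
        (n : ℝ) * |((h - expected n r m d : ℤ) : ℝ)| ≤ C * (n : ℝ) ^ d) ∧
      ((∃ k ≤ d, (co n r (d + 1 - m) k : ℝ) ≤ -(ε * (n : ℝ) ^ k)) →
        h = ((n + d).choose n : ℤ)) ∧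
      (2 * m ≤ d + 1 →
        |((h - min ((n + d).choose n : ℤ) (r * ((n + m - 1).choose n : ℤ)) : ℤ) : ℝ)| ≤
          ε * (n : ℝ) ^ d ∧
        ((1 + ε) * ((n + d).choose n : ℝ) ≤ r * ((n + m - 1).choose n : ℝ) →
          h = ((n + d).choose n : ℤ))) := by
  classical
  have hfac : (1 : ℝ) ≤ (d.factorial : ℝ) := by exact_mod_cast Nat.factorial_pos d
  have hε1 : 0 < ε / d.factorial := by positivity
  have hε2 : ε / d.factorial ≤ ε := div_le_self hε.le hfac
  obtain ⟨C, n0, hC0, hn0, H⟩ := Pool.Agent.TH130.FP.main_K_succ d (ε / d.factorial) hε1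
  refine ⟨C, n0, fun n r hn => ?_⟩
  have he : 0 < d + 1 - m := by omega
  have hn1 : 1 ≤ n := hn0.trans hn
  have hnR : (0 : ℝ) < n := by exact_mod_cast hn1
  obtain ⟨h, ⟨Φ, hΦ0, hΦ⟩, hb⟩ := H ℂ n hn r (fun _ => d + 1 - m) (fun _ => he)
  obtain ⟨b1, b2, b3⟩ := hb d le_rfl
  simp only [co_eq n r he] at b1 b2 b3
  have hle : ∀ k, ε / d.factorial * (n : ℝ) ^ k ≤ ε * (n : ℝ) ^ k := fun k =>
    mul_le_mul_of_nonneg_right hε2 (by positivity)
  have htr : (Pool.Agent.TH130.FP.trunc (n + 1) (List.ofFn fun _ : Fin r => d + 1 - m) d : ℤ) =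
      ((n + d).choose n : ℤ) - expected n r m d := by
    unfold Pool.Agent.TH130.FP.trunc expected
    simp only [co_eq n r he]
    ring
  rw [htr] at b1
  have hval : IsGeneralHilbertValue n r m d (((n + d).choose n : ℤ) - h d) := by
    refine generally_of_poly Φ hΦ0 ?_
    intro v hv hv2
    have h1 := hΦ _ hv2 d (Finset.mem_range.2 (by omega))
    unfold hilbert
    rw [forms_mk hmd v hv, h1, H350MG.finrank_Rj']
    rw [Pool.Agent.TH130.FP.gj_fin]
  have hd1 : |(((((n + d).choose n : ℤ) - h d) - expected n r m d : ℤ) : ℝ)| ≤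
      ε * (n : ℝ) ^ d := by
    refine le_trans (le_of_eq ?_) (b1.trans (hle d))
    rw [← abs_neg]
    congr 1
    push_cast
    ring
  have hd3 : (∃ k ≤ d, (co n r (d + 1 - m) k : ℝ) ≤ -(ε / d.factorial * (n : ℝ) ^ k)) →
      (((n + d).choose n : ℤ) - h d) = ((n + d).choose n : ℤ) := by
    intro h'
    rw [b3 h']
    simp
  refine ⟨((n + d).choose n : ℤ) - h d, hval, hd1, ?_, ?_, ?_⟩
  · intro hreg
    have h1 := b2 fun k hk => (hle k).trans (hreg k hk)
    have hpos : ∀ k ≤ d, 0 < co n r (d + 1 - m) k := by
      intro k hk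
      have h2 := hreg k hk
      have h3 : 0 < ε * (n : ℝ) ^ k := by positivity
      have h4 : (0 : ℝ) < (co n r (d + 1 - m) k : ℝ) := by linarith
      exact_mod_cast h4
    unfold expected
    rw [if_pos hpos]
    refine le_trans (le_of_eq ?_) h1
    congr 1
    rw [← abs_neg]
    congr 1
    push_cast
    ring
  · rintro ⟨k, hk, hk2⟩
    refine hd3 ⟨k, hk, ?_⟩
    have := hle k
    linarith
  · intro h2m
    refine ⟨?_, ?_⟩
    · rw [← expected_eq_min hm h2m]
      exact hd1
    · intro hr
      refine hd3 ⟨d, le_rfl, ?_⟩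
      have h1 := co_two (n := n) (r := r) (e := d + 1 - m) (k := d) he (by omega) (by omega)
      have h2 : n + d - (d + 1 - m) = n + m - 1 := by omega
      rw [h2] at h1
      have h3 : (co n r (d + 1 - m) d : ℝ) =
          ((n + d).choose n : ℝ) - r * ((n + m - 1).choose n : ℝ) := by
        rw [h1]; push_cast; ring
      have h4 : (n : ℝ) ^ d ≤ d.factorial * ((n + d).choose n : ℝ) := by
        have h5 : n ^ d ≤ (n + d).descFactorial d := by
          have h6 := Nat.pow_sub_le_descFactorial (n + d) d
          refine le_trans (Nat.pow_le_pow_left (by omega) d) h6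
        rw [Nat.descFactorial_eq_factorial_mul_choose] at h5
        have h6 : (n + d).choose d = (n + d).choose n := (Nat.choose_symm_add).symm
        rw [h6] at h5
        exact_mod_cast h5
      rw [h3]
      have h5 : ε / d.factorial * (n : ℝ) ^ d ≤ ε * ((n + d).choose n : ℝ) := by
        calc ε / d.factorial * (n : ℝ) ^ d ≤
              ε / d.factorial * (d.factorial * ((n + d).choose n : ℝ)) :=
              mul_le_mul_of_nonneg_left h4 hε1.le
          _ = ε * ((n + d).choose n : ℝ) := by field_simp
      linarith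

end Pool.Agent.Results.MP_b56c98_ag.LeadingOrder
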