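import Pool.Agent.TH3.IR.Window

set_option autoImplicit false

/-!
# The Hilbert function of `r ≥ 3 ^ n` general points of multiplicity `m` outside a window

For `n ≥ 2`, `r ≥ 3 ^ n` and every `m` the Hilbert function of `R / I^(m)` for `r` general points of
`ℙⁿ` is

* `H_{n,r,m}(d) = binom (n + d) n` for `d < r ^ (1 / n) * m`;
* `H_{n,r,m}(d) = r * binom (n + m - 1) n` for `d ≥ r ^ (1 / n) * (m + n - 1) + (n - 1)`.

So it is known in all degrees but those of an interval of length `(n - 1) * (r ^ (1 / n) + 1)`, which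
does not depend on `m`.
-/

namespace Pool.Agent.Results.MP_b56c98_ag.UniformWindow

open MvPolynomial
open scoped LinearAlgebra.Projectivization
open Pool.Agent.H350R3.MG

/-- The `m`-th symbolic power of the ideal of the points `P₁, …, P_r`. -/
noncomputable def symbolicPower {n r : ℕ} (m : ℕ) (P : Fin r → ℙ ℂ (Fin (n + 1) → ℂ)) :
    Ideal (MvPolynomial (Fin (n + 1)) ℂ) :=
  ⨅ i, primeIdeal (P i) ^ m

/-- The Hilbert function `dim R_d - dim J_d` of `R / J`. -/
noncomputable def hilbert {n : ℕ} (J : Ideal (MvPolynomial (Fin (n + 1)) ℂ)) (d : ℕ) : ℤ :=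
  (Module.finrank ℂ (homogeneousSubmodule (Fin (n + 1)) ℂ d) : ℤ) -
    Module.finrank ℂ (homogeneousSubmodule (Fin (n + 1)) ℂ d ⊓ Submodule.restrictScalars ℂ J :
      Submodule ℂ (MvPolynomial (Fin (n + 1)) ℂ))

/-- `h` is the value `H_{n,r,m}(d)` of the Hilbert function of `R / I^(m)` for `r` general points:
the value is `h` for all the `r`-tuples of points in a nonempty Zariski open set. -/
def IsGeneralHilbertValue (n r m d : ℕ) (h : ℤ) : Prop :=
  Generally (fun P : Fin r → ℙ ℂ (Fin (n + 1) → ℂ) => hilbert (symbolicPower m P) d = h)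

/-- Let `n ≥ 2` and `r ≥ 3 ^ n`. If `d < r ^ (1 / n) * m`, then `H_{n,r,m}(d) = binom (n + d) n`. If
`d ≥ r ^ (1 / n) * (m + n - 1) + (n - 1)`, then `H_{n,r,m}(d) = r * binom (n + m - 1) n`. In both
cases the value is `min (binom (n + d) n) (r * binom (n + m - 1) n)`. -/
theorem result (n r m d : ℕ) (hn : 2 ≤ n) (hr : 3 ^ n ≤ r) :
    ((d : ℝ) < (r : ℝ) ^ (1 / (n : ℝ)) * m →
      IsGeneralHilbertValue n r m d ((n + d).choose n) ∧
        (n + d).choose n ≤ r * (n + m - 1).choose n) ∧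
    ((r : ℝ) ^ (1 / (n : ℝ)) * ((m : ℝ) + n - 1) + ((n : ℝ) - 1) ≤ d →
      IsGeneralHilbertValue n r m d (r * (n + m - 1).choose n) ∧
        r * (n + m - 1).choose n ≤ (n + d).choose n) := by
  have hr0 : 0 < r := lt_of_lt_of_le (by positivity) hr
  have hrR : (0 : ℝ) < r := by exact_mod_cast hr0
  have hdim : Module.finrank ℂ (homogeneousSubmodule (Fin (n + 1)) ℂ d) = (n + d).choose n := by
    rw [TH3.IR.finrank_forms (by omega) d, Nat.add_comm d n]
  obtain ⟨U, hU, hU', h⟩ := TH3.IR.main_window hn hr (fun _ : Fin r => m)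
  simp only [Finset.sum_const, Finset.card_univ, Fintype.card_fin, nsmul_eq_mul,
    smul_eq_mul] at h
  have e1 : m + n - 1 = n + m - 1 := by omega
  have e2 : d + n = n + d := by omega
  have hpf : ∀ P : Fin r → ℙ ℂ (Fin (n + 1) → ℂ), TH3.IR.pforms d (fun _ : Fin r => m) P =
      (homogeneousSubmodule (Fin (n + 1)) ℂ d ⊓ Submodule.restrictScalars ℂ (symbolicPower m P) :
        Submodule ℂ (MvPolynomial (Fin (n + 1)) ℂ)) := fun P => rfl
  obtain ⟨P0, hP0⟩ := hU'
  refine ⟨fun hd => ?_, fun hd => ?_⟩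
  · have hd' : (r : ℝ) ^ (((n : ℝ) - 1) / n) * d < (r : ℝ) * m := by
      have hn0 : (n : ℝ) ≠ 0 := by
        have : 0 < n := by omega
        exact_mod_cast this.ne'
      have h1 : (r : ℝ) = (r : ℝ) ^ (((n : ℝ) - 1) / n) * (r : ℝ) ^ (1 / (n : ℝ)) := by
        rw [← Real.rpow_add hrR]
        have : ((n : ℝ) - 1) / n + 1 / (n : ℝ) = 1 := by field_simp; ring
        rw [this, Real.rpow_one]
      have h2 : 0 < (r : ℝ) ^ (((n : ℝ) - 1) / n) := Real.rpow_pos_of_pos hrR _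
      calc (r : ℝ) ^ (((n : ℝ) - 1) / n) * d <
            (r : ℝ) ^ (((n : ℝ) - 1) / n) * ((r : ℝ) ^ (1 / (n : ℝ)) * m) :=
            mul_lt_mul_of_pos_left hd h2
        _ = (r : ℝ) ^ (((n : ℝ) - 1) / n) * (r : ℝ) ^ (1 / (n : ℝ)) * m := by ring
        _ = (r : ℝ) * m := by rw [← h1]
    have h0 := ((h P0 hP0 d).1 hd').2
    rw [e1, e2] at h0
    refine ⟨⟨U, hU, ⟨P0, hP0⟩, fun P hP => ?_⟩, h0⟩
    have h3 := ((h P hP d).1 hd').1
    rw [hpf] at h3
    show hilbert (symbolicPower m P) d = ((n + d).choose n : ℤ)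
    unfold hilbert
    rw [h3, finrank_bot, hdim]
    simp
  · have hd' : ∀ _ : Fin r, (r : ℝ) ^ (1 / (n : ℝ)) * ((m : ℝ) + n - 1) + ((n : ℝ) - 1) ≤ d :=
      fun _ => hd
    have h0 := (h P0 hP0 d).2 hd'
    rw [e1, e2] at h0
    refine ⟨⟨U, hU, ⟨P0, hP0⟩, fun P hP => ?_⟩, by omega⟩
    have h3 := (h P hP d).2 hd'
    rw [hpf, e1, e2] at h3
    show hilbert (symbolicPower m P) d = (r : ℤ) * ((n + m - 1).choose n : ℤ)
    unfold hilbert
    rw [hdim]
    have h4 : (r : ℤ) * ((n + m - 1).choose n : ℤ) = ((r * (n + m - 1).choose n : ℕ) : ℤ) := by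
      push_cast
      rfl
    rw [h4]
    omega

end Pool.Agent.Results.MP_b56c98_ag.UniformWindow
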